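import Mathlib
import Pool.Agent.W809.CI.Defs

/-!
Equivariant embeddings of the joins `E_n ℤ_p` in a system whose other limit points are aperiodic.
-/

set_option autoImplicit false

namespace Pool.Agent.W984.CN

open Topology Pool.Agent.W809.CI

section EJ

variable {p n : ℕ} [NeZero p]

/-- the map of `E_n ℤ_p` induced by a permutation of `ℤ/p` -/
def mp (e : Equiv.Perm (ZMod p)) (w : EJoin p n) : EJoin p n :=
  ⟨fun i g => w.1 i (e g), fun i g => w.2.1 i _, by
    refine Eq.trans ?_ w.2.2.1
    refine Finset.sum_congr rfl fun i _ => ?_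
    exact Fintype.sum_equiv e _ _ (fun g => rfl),
    fun i g g' h h' => e.injective (w.2.2.2 i _ _ h h')⟩

theorem ext_iff' {w w' : EJoin p n} : w = w' ↔ ∀ i g, w.1 i g = w'.1 i g := by
  constructor
  · rintro rfl i g
    rfl
  · intro h
    refine Subtype.ext ?_
    funext i g
    exact h i g

theorem continuous_val : Continuous (fun w : EJoin p n => w.1) := continuous_subtype_val

theorem continuous_coord (i : Fin (n + 1)) (g : ZMod p) :
    Continuous (fun w : EJoin p n => w.1 i g) :=
  (continuous_apply g).comp ((continuous_apply i).comp continuous_val)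

theorem continuous_mp (e : Equiv.Perm (ZMod p)) : Continuous (mp (n := n) e) := by
  refine Continuous.subtype_mk ?_ _
  exact continuous_pi fun i => continuous_pi fun g => continuous_coord i (e g)

theorem shift_eq (w : EJoin p n) : w.shift = mp (Equiv.subRight 1) w := rfl

theorem coord_mem (w : EJoin p n) (i : Fin (n + 1)) (g : ZMod p) :
    w.1 i g ∈ Set.Icc (0 : ℝ) 1 := by
  refine ⟨w.2.1 i g, ?_⟩
  calc w.1 i g ≤ ∑ g', w.1 i g' :=
        Finset.single_le_sum (f := fun g' => w.1 i g') (fun g' _ => w.2.1 i g') (Finset.mem_univ g)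
    _ ≤ ∑ i', ∑ g', w.1 i' g' :=
        Finset.single_le_sum (f := fun i' => ∑ g', w.1 i' g')
          (fun i' _ => Finset.sum_nonneg fun g' _ => w.2.1 i' g') (Finset.mem_univ i)
    _ = 1 := w.2.2.1

instance : CompactSpace (EJoin p n) := by
  have h1 : IsCompact {w : Fin (n + 1) → ZMod p → ℝ | (∀ i g, 0 ≤ w i g) ∧
      (∑ i, ∑ g, w i g = 1) ∧ ∀ i g g', w i g ≠ 0 → w i g' ≠ 0 → g = g'} := by
    have hK : IsCompact (Set.pi Set.univ fun _ : Fin (n + 1) =>
        Set.pi Set.univ fun _ : ZMod p => Set.Icc (0 : ℝ) 1) :=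
      isCompact_univ_pi fun _ => isCompact_univ_pi fun _ => isCompact_Icc
    refine hK.of_isClosed_subset ?_ ?_
    · have e : {w : Fin (n + 1) → ZMod p → ℝ | (∀ i g, 0 ≤ w i g) ∧
          (∑ i, ∑ g, w i g = 1) ∧ ∀ i g g', w i g ≠ 0 → w i g' ≠ 0 → g = g'} =
          (⋂ i, ⋂ g, {w | 0 ≤ w i g}) ∩ ({w | ∑ i, ∑ g, w i g = 1} ∩
            ⋂ i, ⋂ g, ⋂ g', ⋂ (_ : g ≠ g'), {w | w i g * w i g' = 0}) := by
        ext w
        simp only [Set.mem_setOf_eq, Set.mem_inter_iff, Set.mem_iInter]
        refine and_congr Iff.rfl (and_congr Iff.rfl ?_)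
        constructor
        · intro h i g g' hg
          by_contra h0
          exact hg (h i g g' (left_ne_zero_of_mul h0) (right_ne_zero_of_mul h0))
        · intro h i g g' h1 h2
          by_contra hg
          exact mul_ne_zero h1 h2 (h i g g' hg)
      rw [e]
      have hc : ∀ (i : Fin (n + 1)) (g : ZMod p),
          Continuous (fun w : Fin (n + 1) → ZMod p → ℝ => w i g) := fun i g =>
        (continuous_apply g).comp (continuous_apply i)
      refine IsClosed.inter ?_ (IsClosed.inter ?_ ?_)
      · exact isClosed_iInter fun i => isClosed_iInter fun g =>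
          isClosed_le continuous_const (hc i g)
      · exact isClosed_eq (continuous_finset_sum _ fun i _ => continuous_finset_sum _ fun g _ =>
          hc i g) continuous_const
      · exact isClosed_iInter fun i => isClosed_iInter fun g => isClosed_iInter fun g' =>
          isClosed_iInter fun _ => isClosed_eq ((hc i g).mul (hc i g')) continuous_const
    · intro w hw i _ g _
      exact coord_mem (⟨w, hw⟩ : EJoin p n) i g
  exact isCompact_iff_compactSpace.1 h1

end EJ

section sys

variable (X₀ : Type) [TopologicalSpace X₀]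

/-- letters -/
abbrev Wd : Type := (ℕ → X₀) × (ℕ → unitInterval)

/-- the full system -/
abbrev Yd : Type := ℤ → Wd X₀

/-- the shift -/
def Sh : Yd X₀ ≃ₜ Yd X₀ where
  toFun y := fun i => y (i + 1)
  invFun y := fun i => y (i - 1)
  left_inv y := by
    funext i
    simp
  right_inv y := by
    funext i
    simp
  continuous_toFun := continuous_pi fun i => continuous_apply (i + 1)
  continuous_invFun := continuous_pi fun i => continuous_apply (i - 1)

theorem Sh_pow (m : ℕ) (y : Yd X₀) (i : ℤ) : ((Sh X₀ ^ m) y) i = y (i + m) := by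
  induction m generalizing y i with
  | zero => simp
  | succ m ih =>
    rw [pow_succ, Homeomorph.mul_apply, ih]
    change y (i + m + 1) = _
    push_cast
    ring_nf

end sys

section emb

variable {X₀ : Type} {p n : ℕ} [NeZero p]

/-- the rotation by `i` -/
def ro (i : ℤ) (w : EJoin p n) : EJoin p n := mp (Equiv.subRight (i : ZMod p)) w

open Classical in
/-- multiplication by `k` on `ℤ/p`, if `k` is invertible -/
noncomputable def pk (p k : ℕ) : Equiv.Perm (ZMod p) :=
  if h : IsUnit (k : ZMod p) then Units.mulLeft h.unit else Equiv.refl _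

omit [NeZero p] in
theorem pk_apply {k : ℕ} (h : IsUnit (k : ZMod p)) (g : ZMod p) : pk p k g = k * g := by
  unfold pk
  rw [dif_pos h]
  simp

theorem ro_zero (w : EJoin p n) : ro 0 w = w := by
  rw [ext_iff']
  intro i g
  simp [ro, mp]

theorem ro_shift (i : ℤ) (w : EJoin p n) : (ro i w).shift = ro (i + 1) w := by
  rw [ext_iff']
  intro j g
  simp only [ro, mp, EJoin.shift, Equiv.subRight_apply]
  push_cast
  ring_nf

variable {Q : Type} [TopologicalSpace Q]

theorem h_pow {h : Q → EJoin p n} {τ : Q ≃ₜ Q} (hh : ∀ w, h (τ w) = (h w).shift) (k : ℕ) (w : Q) :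
    h ((τ ^ k) w) = ro k (h w) := by
  induction k with
  | zero => simp [ro_zero]
  | succ k ih =>
    rw [pow_succ', Homeomorph.mul_apply, hh, ih, ro_shift]
    push_cast
    rfl

/-- the embedding of a `ℤ_p`-space over `E_n ℤ_p` -/
noncomputable def Z (φ : EJoin p n → X₀) (h : Q → EJoin p n) (em : Q → ℕ → unitInterval)
    (τ : Q ≃ₜ Q) (w : Q) : Yd X₀ := fun i =>
  (fun k => φ (mp (pk p k) (h ((τ ^ i) w))), em ((τ ^ i) w))

variable [TopologicalSpace X₀]

theorem continuous_Z {φ : EJoin p n → X₀} (hφ : Continuous φ) {h : Q → EJoin p n}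
    (hh : Continuous h) {em : Q → ℕ → unitInterval} (hem : Continuous em) (τ : Q ≃ₜ Q) :
    Continuous (Z φ h em τ) := by
  refine continuous_pi fun i => Continuous.prodMk ?_ ?_
  · exact continuous_pi fun k => hφ.comp ((continuous_mp _).comp (hh.comp (τ ^ i).continuous))
  · exact hem.comp (τ ^ i).continuous

omit [TopologicalSpace X₀] in
theorem Z_inj {φ : EJoin p n → X₀} {h : Q → EJoin p n} {em : Q → ℕ → unitInterval}
    (hem : Function.Injective em) (τ : Q ≃ₜ Q) : Function.Injective (Z φ h em τ) := by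
  intro w w' hw
  have h1 := congrArg Prod.snd (congrFun hw 0)
  simp only [Z, zpow_zero] at h1
  exact hem h1

theorem Sh_Z (φ : EJoin p n → X₀) (h : Q → EJoin p n) (em : Q → ℕ → unitInterval)
    (τ : Q ≃ₜ Q) (w : Q) : Sh X₀ (Z φ h em τ w) = Z φ h em τ (τ w) := by
  funext i
  have e : (τ ^ (i + 1)) w = (τ ^ i) (τ w) := by
    rw [zpow_add_one, Homeomorph.mul_apply]
  change Z φ h em τ w (i + 1) = _
  simp only [Z, e]

theorem Sh_Z_pow (φ : EJoin p n → X₀) (h : Q → EJoin p n) (em : Q → ℕ → unitInterval)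
    (τ : Q ≃ₜ Q) (m : ℕ) (hτ : ∀ w, (τ ^ m) w = w) (w : Q) :
    (Sh X₀ ^ m) (Z φ h em τ w) = Z φ h em τ w := by
  funext i
  rw [Sh_pow]
  have e : (τ ^ (i + (m : ℤ))) w = (τ ^ i) w := by
    rw [zpow_add, Homeomorph.mul_apply, zpow_natCast, hτ]
  simp only [Z, e]

omit [TopologicalSpace X₀] in
theorem Z_cond [TopologicalSpace X₀] {φ : EJoin p n → X₀} {T₀ : X₀ ≃ₜ X₀}
    (hφ : ∀ w, φ w.shift = T₀ (φ w)) {h : Q → EJoin p n} {em : Q → ℕ → unitInterval}
    {τ : Q ≃ₜ Q} (hh : ∀ w, h (τ w) = (h w).shift) {k : ℕ}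
    (hk : IsUnit (k : ZMod p)) (w : Q) :
    (Z φ h em τ w (k : ℤ)).1 k = T₀ ((Z φ h em τ w 0).1 k) := by
  change φ (mp (pk p k) (h ((τ ^ (k : ℤ)) w))) = T₀ (φ (mp (pk p k) (h ((τ ^ (0 : ℤ)) w))))
  rw [← hφ, zpow_natCast, h_pow hh, zpow_zero]
  congr 1
  rw [ext_iff']
  intro j g
  simp only [ro, mp, EJoin.shift, Equiv.subRight_apply, pk_apply hk, Homeomorph.one_apply]
  push_cast
  ring_nf

end emb

/-- a compact metrizable space embeds continuously in the cube -/
theorem exists_em (Q : Type) [TopologicalSpace Q] [CompactSpace Q]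
    (hQ : TopologicalSpace.MetrizableSpace Q) :
    ∃ em : Q → ℕ → unitInterval, Continuous em ∧ Function.Injective em := by
  let _ : MetricSpace Q := TopologicalSpace.metrizableSpaceMetric Q
  rcases isEmpty_or_nonempty Q with he | hne
  · exact ⟨fun q => he.elim q, continuous_of_const (fun x => he.elim x), fun x => he.elim x⟩
  let em : Q → ℕ → unitInterval := fun q n =>
    ⟨min 1 (dist q (TopologicalSpace.denseSeq Q n)),
      le_min zero_le_one dist_nonneg, min_le_left _ _⟩
  refine ⟨em, ?_, ?_⟩
  · refine continuous_pi fun n => Continuous.subtype_mk ?_ _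
    exact continuous_const.min (continuous_id.dist continuous_const)
  · intro q q' h
    by_contra hqq
    have hd : 0 < dist q q' := dist_pos.2 hqq
    obtain ⟨n, hn⟩ := (TopologicalSpace.denseRange_denseSeq Q).exists_dist_lt q
      (ε := min 1 (dist q q') / 2) (by positivity)
    have h1 := congrArg Subtype.val (congrFun h n)
    simp only [em] at h1
    have h2 : dist q (TopologicalSpace.denseSeq Q n) < 1 / 2 :=
      hn.trans_le (by linarith [min_le_left 1 (dist q q')])
    have h3 : dist q (TopologicalSpace.denseSeq Q n) < dist q q' / 2 :=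
      hn.trans_le (by linarith [min_le_right 1 (dist q q')])
    rw [min_eq_right (by linarith)] at h1
    have h4 : dist q' (TopologicalSpace.denseSeq Q n) = dist q (TopologicalSpace.denseSeq Q n) := by
      rcases min_choice 1 (dist q' (TopologicalSpace.denseSeq Q n)) with h5 | h5
      · rw [h5] at h1
        linarith
      · rw [h5] at h1
        exact h1.symm
    have h5 := dist_triangle_right q q' (TopologicalSpace.denseSeq Q n)
    linarith

end Pool.Agent.W984.CN
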