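import Mathlib

/-!
Maps between spheres into higher dimensional spheres are nullhomotopic.
-/

set_option autoImplicit false

namespace Pool.Agent.W984.CN

open Topology Metric

/-- `X` is `k`-connected: it is nonempty and every continuous map of the unit sphere `S^j` of
`ℝ^{j+1}`, `0 ≤ j ≤ k`, to `X` is homotopic to a constant map (equivalently: `X` is nonempty and
`π_j(X) = 0` for `0 ≤ j ≤ k`). -/
def IsConn (k : ℕ) (X : Type) [TopologicalSpace X] : Prop :=
  Nonempty X ∧ ∀ j ≤ k, ∀ f : C(sphere (0 : EuclideanSpace ℝ (Fin (j + 1))) 1, X), f.Nullhomotopic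

theorem IsConn.of_homeo {k : ℕ} {X Y : Type} [TopologicalSpace X] [TopologicalSpace Y]
    (h : IsConn k X) (e : X ≃ₜ Y) : IsConn k Y := by
  obtain ⟨⟨x⟩, h2⟩ := h
  refine ⟨⟨e x⟩, fun j hj f => ?_⟩
  have h3 := (h2 j hj ((⟨e.symm, e.symm.continuous⟩ : C(Y, X)).comp f)).comp_right
    (⟨e, e.continuous⟩ : C(X, Y))
  have e1 : (⟨e, e.continuous⟩ : C(X, Y)).comp
      ((⟨e.symm, e.symm.continuous⟩ : C(Y, X)).comp f) = f := by
    ext x
    simp
  rwa [e1] at h3

section null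

variable {X : Type} [TopologicalSpace X] {V : Type} [NormedAddCommGroup V] [NormedSpace ℝ V]

theorem Nm_mem {v : V} (h0 : v ≠ 0) : ‖v‖⁻¹ • v ∈ sphere (0 : V) 1 := by
  rw [mem_sphere_zero_iff_norm, norm_smul, norm_inv, norm_norm,
    inv_mul_cancel₀ (norm_ne_zero_iff.2 h0)]

/-- normalisation -/
noncomputable def Nm (k : X → V) (hk : Continuous k) (h0 : ∀ x, k x ≠ 0) :
    C(X, sphere (0 : V) 1) :=
  ⟨fun x => ⟨‖k x‖⁻¹ • k x, Nm_mem (h0 x)⟩, Continuous.subtype_mk
    ((hk.norm.inv₀ fun x => norm_ne_zero_iff.2 (h0 x)).smul hk) _⟩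

theorem homot (H : unitInterval × X → V) (hH : Continuous H) (h0 : ∀ q, H q ≠ 0)
    (k₀ k₁ : X → V) (hk₀ : Continuous k₀) (hk₁ : Continuous k₁) (h₀ : ∀ x, k₀ x ≠ 0)
    (h₁ : ∀ x, k₁ x ≠ 0) (e₀ : ∀ x, H (0, x) = k₀ x) (e₁ : ∀ x, H (1, x) = k₁ x) :
    (Nm k₀ hk₀ h₀).Homotopic (Nm k₁ hk₁ h₁) := by
  refine ⟨⟨Nm H hH h0, fun x => ?_, fun x => ?_⟩⟩
  · refine Subtype.ext ?_
    change ‖H (0, x)‖⁻¹ • H (0, x) = ‖k₀ x‖⁻¹ • k₀ x
    rw [e₀]
  · refine Subtype.ext ?_
    change ‖H (1, x)‖⁻¹ • H (1, x) = ‖k₁ x‖⁻¹ • k₁ x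
    rw [e₁]

end null

theorem avoid {E V : Type} [NormedAddCommGroup E] [InnerProductSpace ℝ E] [FiniteDimensional ℝ E]
    [NormedAddCommGroup V] [NormedSpace ℝ V] [FiniteDimensional ℝ V]
    (hd : Module.finrank ℝ E < Module.finrank ℝ V) {G : E → V} (hG : ContDiff ℝ 1 G) :
    ∃ u : V, u ≠ 0 ∧ ∀ (r : ℝ), 0 ≤ r → ∀ x ∈ sphere (0 : E) 1, r • G x ≠ u := by
  let Φ : E → V := fun y => ‖y‖ • G (‖y‖⁻¹ • y)
  have hΦ : ∀ y : E, y ≠ 0 → ContDiffAt ℝ 1 Φ y := by
    intro y hy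
    have h1 : ContDiffAt ℝ 1 (fun y : E => ‖y‖) y := contDiffAt_norm ℝ hy
    have h2 : ContDiffAt ℝ 1 (fun y : E => ‖y‖⁻¹ • y) y :=
      (h1.inv (norm_ne_zero_iff.2 hy)).smul contDiffAt_id
    exact h1.smul (hG.contDiffAt.comp y h2)
  have hdim : dimH (Φ '' {y : E | y ≠ 0}) < Module.finrank ℝ V := by
    refine lt_of_le_of_lt (dimH_image_le_of_locally_lipschitzOn fun y hy => ?_) ?_
    · obtain ⟨K, t, ht, hK⟩ := (hΦ y hy).exists_lipschitzOnWith
      exact ⟨K, t, mem_nhdsWithin_of_mem_nhds ht, hK⟩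
    · refine lt_of_le_of_lt (dimH_mono (Set.subset_univ _)) ?_
      rw [Real.dimH_univ_eq_finrank E]
      exact_mod_cast hd
  have hdense := dense_compl_of_dimH_lt_finrank hdim
  have : Nontrivial V := Module.nontrivial_of_finrank_pos (R := ℝ) (by omega)
  obtain ⟨v, hv⟩ := exists_ne (0 : V)
  obtain ⟨u, hu, hu0⟩ := hdense.exists_mem_open (isOpen_compl_singleton (x := (0 : V))) ⟨v, hv⟩
  have hu0' : u ≠ 0 := by
    first
      | exact hu0
      | exact hu
  have hu' : u ∈ (Φ '' {y : E | y ≠ 0})ᶜ := by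
    first
      | exact hu
      | exact hu0
  refine ⟨u, hu0', fun r hr x hx h => ?_⟩
  rcases hr.eq_or_lt with h0 | h0
  · rw [← h0, zero_smul] at h
    exact hu0' h.symm
  · have hx1 : ‖x‖ = 1 := mem_sphere_zero_iff_norm.1 hx
    have hn : ‖r • x‖ = r := by rw [norm_smul, hx1, mul_one, Real.norm_eq_abs, abs_of_pos h0]
    refine hu' ⟨r • x, ?_, ?_⟩
    · intro h1
      rw [h1, norm_zero] at hn
      exact h0.ne hn
    · change ‖r • x‖ • G (‖r • x‖⁻¹ • (r • x)) = u
      rw [hn, smul_smul, inv_mul_cancel₀ h0.ne', one_smul, h]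

theorem null {E V : Type} [NormedAddCommGroup E] [InnerProductSpace ℝ E] [FiniteDimensional ℝ E]
    [NormedAddCommGroup V] [NormedSpace ℝ V] [FiniteDimensional ℝ V]
    (hd : Module.finrank ℝ E < Module.finrank ℝ V)
    (f : C(sphere (0 : E) 1, sphere (0 : V) 1)) : f.Nullhomotopic := by
  -- extension
  let f' : C(sphere (0 : E) 1, V) := (⟨Subtype.val, continuous_subtype_val⟩ : C(sphere (0 : V) 1, V)).comp f
  have hemb : IsClosedEmbedding (Subtype.val : sphere (0 : E) 1 → E) :=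
    isClosed_sphere.isClosedEmbedding_subtypeVal
  obtain ⟨F, hF⟩ := ContinuousMap.exists_extension hemb f'
  have hF' : ∀ x : sphere (0 : E) 1, F x.1 = (f x).1 := fun x => by
    have := congrArg (fun g : C(sphere (0 : E) 1, V) => g x) hF
    exact this
  obtain ⟨G, hG, hGF, -⟩ := F.continuous.exists_contDiff_approx (ε := fun _ => 1) 1
    continuous_const (fun _ => one_pos)
  have hGc : Continuous G := hG.continuous
  obtain ⟨u, hu0, hu'⟩ := avoid hd (G := G) hG
  have hfn : ∀ x, ‖(f x).1‖ = 1 := fun x => mem_sphere_zero_iff_norm.1 (f x).2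
  have hf0 : ∀ x, (f x).1 ≠ 0 := fun x h => by
    have := hfn x
    rw [h, norm_zero] at this
    exact zero_ne_one this
  have hcl : ∀ x : sphere (0 : E) 1, ‖G x.1 - (f x).1‖ < 1 := fun x => by
    have := hGF x.1
    rwa [dist_eq_norm, hF'] at this
  have hG0 : ∀ x : sphere (0 : E) 1, G x.1 ≠ 0 := fun x h => by
    have := hcl x
    rw [h, zero_sub, norm_neg, hfn] at this
    exact lt_irrefl _ this
  have hfc : Continuous fun x => (f x).1 := continuous_subtype_val.comp f.continuous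
  have hGc' : Continuous fun x : sphere (0 : E) 1 => G x.1 := hGc.comp continuous_subtype_val
  have e0 : f = Nm (fun x => (f x).1) hfc hf0 := by
    ext x
    change (f x).1 = ‖(f x).1‖⁻¹ • (f x).1
    rw [hfn, inv_one, one_smul]
  have h1 : f.Homotopic (Nm (fun x : sphere (0 : E) 1 => G x.1) hGc' hG0) := by
    rw [e0]
    refine homot (fun q => (1 - (q.1 : ℝ)) • (f q.2).1 + (q.1 : ℝ) • G q.2.1) ?_ ?_ _ _ _ _ _ _
      ?_ ?_
    · have c1 : Continuous fun q : unitInterval × sphere (0 : E) 1 => (q.1 : ℝ) :=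
        continuous_subtype_val.comp continuous_fst
      exact ((continuous_const.sub c1).smul (hfc.comp continuous_snd)).add
        (c1.smul (hGc'.comp continuous_snd))
    · intro q hq
      have h2 : (f q.2).1 = -((q.1 : ℝ) • (G q.2.1 - (f q.2).1)) := by
        rw [eq_neg_iff_add_eq_zero]
        refine Eq.trans ?_ hq
        module
      have h3 := congrArg norm h2
      rw [hfn, norm_neg, norm_smul, Real.norm_eq_abs, abs_of_nonneg q.1.2.1] at h3
      have h4 := hcl q.2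
      have h5 := q.1.2.2
      have h6 := norm_nonneg (G q.2.1 - (f q.2).1)
      nlinarith
    · intro x
      simp
    · intro x
      simp
  have h2 : (Nm (fun x : sphere (0 : E) 1 => G x.1) hGc' hG0).Homotopic
      (Nm (fun _ : sphere (0 : E) 1 => -u) continuous_const fun _ => neg_ne_zero.2 hu0) := by
    refine homot (fun q => (1 - (q.1 : ℝ)) • G q.2.1 - (q.1 : ℝ) • u) ?_ ?_ _ _ _ _ _ _ ?_ ?_
    · have c1 : Continuous fun q : unitInterval × sphere (0 : E) 1 => (q.1 : ℝ) :=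
        continuous_subtype_val.comp continuous_fst
      exact ((continuous_const.sub c1).smul (hGc'.comp continuous_snd)).sub
        (c1.smul continuous_const)
    · intro q hq
      rcases eq_or_ne (q.1 : ℝ) 0 with h3 | h3
      · rw [h3] at hq
        simp only [sub_zero, one_smul, zero_smul] at hq
        exact hG0 q.2 hq
      · refine hu' ((q.1 : ℝ)⁻¹ * (1 - (q.1 : ℝ))) (mul_nonneg (inv_nonneg.2 q.1.2.1)
          (sub_nonneg.2 q.1.2.2)) q.2.1 q.2.2 ?_
        have h4 : (1 - (q.1 : ℝ)) • G q.2.1 = (q.1 : ℝ) • u := sub_eq_zero.1 hq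
        rw [mul_smul, h4, smul_smul, inv_mul_cancel₀ h3, one_smul]
    · intro x
      simp
    · intro x
      simp
  refine ⟨⟨‖-u‖⁻¹ • -u, ?_⟩, ?_⟩
  · rw [mem_sphere_zero_iff_norm, norm_smul, norm_inv, norm_norm,
      inv_mul_cancel₀ (norm_ne_zero_iff.2 (neg_ne_zero.2 hu0))]
  · refine h1.trans ?_
    exact h2

theorem isConn_sphere {V : Type} [NormedAddCommGroup V] [NormedSpace ℝ V] [FiniteDimensional ℝ V]
    {k : ℕ} (hk : k + 1 < Module.finrank ℝ V) : IsConn k (sphere (0 : V) 1) := by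
  have : Nontrivial V := by
    refine Module.nontrivial_of_finrank_pos (R := ℝ) (by omega)
  refine ⟨(NormedSpace.sphere_nonempty.2 zero_le_one).to_subtype, fun j hj f => ?_⟩
  refine null ?_ f
  rw [finrank_euclideanSpace_fin]
  omega

end Pool.Agent.W984.CN
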