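import Mathlib
import Pool.Agent.W984.CN.Basic2

/-!
The transfer theorem: every family of free `ℤ_p`-spaces of index at most the coindex of a given
system is the family of the `p`-periodic point sets of one system.
-/

set_option autoImplicit false

namespace Pool.Agent.W984.CN

open Topology Pool.Agent.W809.CI

theorem metr {X : Type} [TopologicalSpace X] [CompactSpace X]
    (h : TopologicalSpace.MetrizableSpace X) (XS : Set (Yd X)) :
    TopologicalSpace.MetrizableSpace XS := by
  let _ := TopologicalSpace.metrizableSpaceMetric X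
  have : SecondCountableTopology X := inferInstance
  have : T3Space X := inferInstance
  have : SecondCountableTopology (Yd X) := inferInstance
  have : T3Space (Yd X) := inferInstance
  have : TopologicalSpace.MetrizableSpace (Yd X) :=
    TopologicalSpace.metrizableSpace_of_t3_secondCountable _
  infer_instance

/-- `ind_p Q ≤ n`: there is a continuous equivariant map from the `ℤ_p`-space `(Q, τ)` to
`E_n ℤ_p`. -/
def IndLe {Q : Type} [TopologicalSpace Q] (τ : Q ≃ₜ Q) (p n : ℕ) [NeZero p] : Prop :=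
  ∃ h : Q → EJoin p n, Continuous h ∧ ∀ w, h (τ w) = (h w).shift

theorem transfer {X₀ : Type} [TopologicalSpace X₀] [CompactSpace X₀]
    (hX₀ : TopologicalSpace.MetrizableSpace X₀) (T₀ : X₀ ≃ₜ X₀) (hT₀ : ∀ x, T₀ x ≠ x)
    (S : Set ℕ) (N : ℕ → ℕ) (hS : ∀ p ∈ S, p.Prime)
    (hN : ∀ (p : ℕ) [Fact p.Prime], p ∈ S → HasComap T₀ p (N p))
    (Q : ℕ → Type) [∀ p, TopologicalSpace (Q p)] [∀ p, CompactSpace (Q p)]
    (hQ : ∀ p, TopologicalSpace.MetrizableSpace (Q p)) (τ : ∀ p, Q p ≃ₜ Q p)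
    (hτ : ∀ p ∈ S, ∀ w, (τ p ^ p) w = w)
    (hI : ∀ (p : ℕ) [Fact p.Prime], p ∈ S → IndLe (τ p) p (N p)) :
    ∃ (X : Type) (_ : TopologicalSpace X) (T : X ≃ₜ X),
      CompactSpace X ∧ TopologicalSpace.MetrizableSpace X ∧ (∀ x, T x ≠ x) ∧
      (∀ (p : ℕ), p ∈ S →
        ∃ e : Q p ≃ₜ Per T p, ∀ w, e (τ p w) = (e w).next) ∧
      ∀ (m : ℕ), (∀ p ∈ S, ¬ p ∣ m) → IsEmpty (Per T m) := by
  classical
  let _ : MetricSpace X₀ := TopologicalSpace.metrizableSpaceMetric X₀
  -- choose the maps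
  have hne : ∀ p : S, NeZero (p : ℕ) := fun p => ⟨(hS p p.2).ne_zero⟩
  have hch : ∀ p : S, ∃ φ : @EJoin p (N p) (hne p) → X₀, Continuous φ ∧
      ∀ w, φ (@EJoin.shift p (N p) (hne p) w) = T₀ (φ w) := by
    intro p
    have : Fact (p : ℕ).Prime := ⟨hS p p.2⟩
    obtain ⟨f, hf, hf'⟩ := hN p p.2
    refine ⟨fun w => (f w).1, continuous_subtype_val.comp hf, fun w => ?_⟩
    have := congrArg Subtype.val (hf' w)
    exact this
  choose φ hφ hφ' using hch
  have hch2 : ∀ p : S, ∃ h : Q p → @EJoin p (N p) (hne p), Continuous h ∧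
      ∀ w, h (τ p w) = @EJoin.shift p (N p) (hne p) (h w) := by
    intro p
    have : Fact (p : ℕ).Prime := ⟨hS p p.2⟩
    exact hI p p.2
  choose h hh hh' using hch2
  have hch3 : ∀ p : S, ∃ em : Q p → ℕ → unitInterval, Continuous em ∧ Function.Injective em :=
    fun p => exists_em (Q p) (hQ p)
  choose em hem hem' using hch3
  let R : S → Set (Yd X₀) := fun p =>
    Set.range (@Z X₀ p (N p) (hne p) (Q p) _ (φ p) (h p) (em p) (τ p))
  have hRc : ∀ p, IsCompact (R p) := by
    intro p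
    have := hne p
    exact isCompact_range (continuous_Z (hφ p) (hh p) (hem p) (τ p))
  let A : Set (Yd X₀) := ⋃ p, R p
  let XS : Set (Yd X₀) := closure A
  have hSA : Sh X₀ '' A = A := by
    ext y
    simp only [A, Set.mem_image, Set.mem_iUnion, R, Set.mem_range]
    constructor
    · rintro ⟨y', ⟨p, w, rfl⟩, rfl⟩
      have := hne p
      exact ⟨p, τ p w, (Sh_Z (φ p) (h p) (em p) (τ p) w).symm⟩
    · rintro ⟨p, w, rfl⟩
      have := hne p
      exact ⟨_, ⟨p, (τ p).symm w, rfl⟩, by rw [Sh_Z, Homeomorph.apply_symm_apply]⟩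
  have hXS : ∀ y, y ∈ XS ↔ Sh X₀ y ∈ XS := by
    intro y
    have h1 : Sh X₀ '' XS = XS := by
      change Sh X₀ '' closure A = closure A
      rw [(Sh X₀).image_closure, hSA]
    constructor
    · intro hy
      rw [← h1]
      exact Set.mem_image_of_mem _ hy
    · intro hy
      rw [← h1] at hy
      obtain ⟨y', hy', h2⟩ := hy
      rwa [← (Sh X₀).injective h2]
  let T : XS ≃ₜ XS := (Sh X₀).subtype hXS
  have hTval : ∀ x : XS, (T x).1 = Sh X₀ x.1 := fun x => rfl
  have hTpow : ∀ (m : ℕ) (x : XS), ((T ^ m) x).1 = (Sh X₀ ^ m) x.1 := by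
    intro m
    induction m with
    | zero => intro x; rfl
    | succ m ih =>
      intro x
      rw [pow_succ, Homeomorph.mul_apply, ih, hTval, pow_succ, Homeomorph.mul_apply]
  -- the closed conditions
  have hcl : ∀ m : ℕ, IsClosed {y : Yd X₀ | (y (m : ℤ)).1 m = T₀ ((y 0).1 m)} := by
    intro m
    refine isClosed_eq ?_ ?_
    · exact (continuous_apply m).comp (continuous_fst.comp (continuous_apply (m : ℤ)))
    · exact T₀.continuous.comp
        ((continuous_apply m).comp (continuous_fst.comp (continuous_apply (0 : ℤ))))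
  have hcond : ∀ (m : ℕ) (p : S), ¬ (p : ℕ) ∣ m → ∀ y ∈ R p,
      (y (m : ℤ)).1 m = T₀ ((y 0).1 m) := by
    rintro m p hm y ⟨w, rfl⟩
    have := hne p
    refine Z_cond (hφ' p) (hh' p) ?_ w
    rw [ZMod.isUnit_iff_coprime]
    exact ((hS p p.2).coprime_iff_not_dvd.2 hm).symm
  have hper : ∀ (m : ℕ) (x : XS), (T ^ m) x = x → (x.1 (m : ℤ)) = x.1 0 := by
    intro m x hx
    have h1 := congrArg Subtype.val hx
    rw [hTpow] at h1
    have h2 := congrFun h1 0
    rw [Sh_pow, zero_add] at h2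
    exact h2
  refine ⟨XS, inferInstance, T, ?_, ?_, ?_, ?_, ?_⟩
  · exact isCompact_iff_compactSpace.1 isClosed_closure.isCompact
  · exact metr hX₀ XS
  · intro x hx
    have h1 := hper 1 x (by rwa [pow_one])
    have h2 : x.1 ∈ {y : Yd X₀ | (y ((1 : ℕ) : ℤ)).1 1 = T₀ ((y 0).1 1)} := by
      refine closure_minimal ?_ (hcl 1) x.2
      intro y hy
      obtain ⟨p, hp⟩ := Set.mem_iUnion.1 hy
      exact hcond 1 p (hS p p.2).not_dvd_one y hp
    have h3 : (x.1 ((1 : ℕ) : ℤ)).1 1 = T₀ ((x.1 0).1 1) := h2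
    rw [h1] at h3
    exact hT₀ _ h3.symm
  · intro q hqS
    let q' : S := ⟨q, hqS⟩
    have hneq : NeZero q := hne q'
    have hmem : ∀ w : Q q, Z (φ q') (h q') (em q') (τ q) w ∈ XS := fun w =>
      subset_closure (Set.mem_iUnion.2 ⟨q', w, rfl⟩)
    let f : Q q → Per T q := fun w => ⟨⟨Z (φ q') (h q') (em q') (τ q) w, hmem w⟩, by
      refine Subtype.ext ?_
      rw [hTpow]
      exact Sh_Z_pow (φ q') (h q') (em q') (τ q) q (hτ q hqS) w⟩
    have hf : Continuous f := Continuous.subtype_mk (Continuous.subtype_mk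
      (continuous_Z (hφ q') (hh q') (hem q') (τ q)) _) _
    have hinj : Function.Injective f := by
      intro w w' hw
      exact Z_inj (φ := φ q') (h := h q') (hem' q') (τ q) (congrArg (fun x : Per T q => x.1.1) hw)
    have hsurj : Function.Surjective f := by
      intro x
      have h1 := hper q x.1 x.2
      have h2 : x.1.1 ∈ R q' ∪ closure (⋃ (p : S) (_ : p ≠ q'), R p) := by
        have h3 : A ⊆ R q' ∪ ⋃ (p : S) (_ : p ≠ q'), R p := by
          intro y hy
          obtain ⟨p, hp⟩ := Set.mem_iUnion.1 hy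
          by_cases hpq : p = q'
          · left
            rwa [← hpq]
          · right
            exact Set.mem_iUnion₂.2 ⟨p, hpq, hp⟩
        have h4 := closure_mono h3 x.1.2
        rw [closure_union, (hRc q').isClosed.closure_eq] at h4
        exact h4
      rcases h2 with ⟨w, hw⟩ | h2
      · refine ⟨w, ?_⟩
        exact Subtype.ext (Subtype.ext hw)
      · exfalso
        have h3 : x.1.1 ∈ {y : Yd X₀ | (y (q : ℤ)).1 q = T₀ ((y 0).1 q)} := by
          refine closure_minimal ?_ (hcl q) h2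
          intro y hy
          obtain ⟨p, hpq, hp⟩ := Set.mem_iUnion₂.1 hy
          refine hcond q p ?_ y hp
          intro hd
          exact hpq (Subtype.ext ((Nat.prime_dvd_prime_iff_eq (hS p p.2) (hS q hqS)).1 hd))
        have h4 : (x.1.1 (q : ℤ)).1 q = T₀ ((x.1.1 0).1 q) := h3
        rw [h1] at h4
        exact hT₀ _ h4.symm
    let e : Q q ≃ Per T q := Equiv.ofBijective f ⟨hinj, hsurj⟩
    have he : Continuous e := hf
    refine ⟨he.homeoOfEquivCompactToT2, fun w => ?_⟩
    refine Subtype.ext (Subtype.ext ?_)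
    exact (Sh_Z (φ q') (h q') (em q') (τ q) w).symm
  · intro m hm
    refine ⟨fun x => ?_⟩
    have h1 := hper m x.1 x.2
    have h2 : x.1.1 ∈ {y : Yd X₀ | (y (m : ℤ)).1 m = T₀ ((y 0).1 m)} := by
      refine closure_minimal ?_ (hcl m) x.1.2
      intro y hy
      obtain ⟨p, hp⟩ := Set.mem_iUnion.1 hy
      exact hcond m p (hm p p.2) y hp
    have h3 : (x.1.1 (m : ℤ)).1 m = T₀ ((x.1.1 0).1 m) := h2
    rw [h1] at h3
    exact hT₀ _ h3.symm

end Pool.Agent.W984.CN
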