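import Mathlib
import Pool.Agent.W984.CN.Sys2

/-!
The free action of `ℤ/p` on the odd spheres and an equivariant map of `S^{2m-1}` to `E_{2m-1} ℤ_p`.
-/

set_option autoImplicit false

namespace Pool.Agent.W984.CN

open Topology Metric Pool.Agent.W809.CI Complex

/-- the sphere `S^{2m-1}` in `ℂ^m` -/
abbrev Sp (m : ℕ) : Type := sphere (0 : EuclideanSpace ℂ (Fin m)) 1

theorem rot_mem (m : ℕ) (c : Circle) (z : Sp m) :
    (c : ℂ) • z.1 ∈ sphere (0 : EuclideanSpace ℂ (Fin m)) 1 := by
  rw [mem_sphere_zero_iff_norm, norm_smul, Circle.norm_coe, one_mul]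
  exact mem_sphere_zero_iff_norm.1 z.2

/-- multiplication by a complex number of modulus one -/
noncomputable def rotf (m : ℕ) (c : Circle) (z : Sp m) : Sp m := ⟨(c : ℂ) • z.1, rot_mem m c z⟩

theorem continuous_smul' (m : ℕ) (c : ℂ) :
    Continuous (fun z : EuclideanSpace ℂ (Fin m) => c • z) := continuous_const_smul c

theorem continuous_rotf (m : ℕ) (c : Circle) : Continuous (rotf m c) := by
  have h : Continuous (fun z : Sp m => (c : ℂ) • z.1) :=
    (continuous_smul' m (c : ℂ)).comp continuous_subtype_val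
  exact h.subtype_mk _

theorem rotf_rotf (m : ℕ) (c c' : Circle) (z : Sp m) : rotf m c (rotf m c' z) = rotf m (c * c') z := by
  refine Subtype.ext ?_
  change (c : ℂ) • ((c' : ℂ) • z.1) = ((c * c' : Circle) : ℂ) • z.1
  rw [smul_smul, Circle.coe_mul]

theorem rotf_one (m : ℕ) (z : Sp m) : rotf m 1 z = z := by
  refine Subtype.ext ?_
  change ((1 : Circle) : ℂ) • z.1 = z.1
  rw [Circle.coe_one, one_smul]

theorem rot_left (m : ℕ) (c : Circle) : Function.LeftInverse (rotf m c⁻¹) (rotf m c) :=
  fun z => by rw [rotf_rotf, inv_mul_cancel, rotf_one]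

theorem rot_right (m : ℕ) (c : Circle) : Function.RightInverse (rotf m c⁻¹) (rotf m c) :=
  fun z => by rw [rotf_rotf, mul_inv_cancel, rotf_one]

/-- multiplication by a complex number of modulus one, as a homeomorphism -/
noncomputable def rot (m : ℕ) (c : Circle) : Sp m ≃ₜ Sp m where
  toFun := rotf m c
  invFun := rotf m c⁻¹
  left_inv := rot_left m c
  right_inv := rot_right m c
  continuous_toFun := continuous_rotf m c
  continuous_invFun := continuous_rotf m c⁻¹

theorem rot_pow (m : ℕ) (c : Circle) (k : ℕ) (z : Sp m) :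
    (rot m c ^ k) z = rotf m (c ^ k) z := by
  induction k generalizing z with
  | zero =>
    rw [pow_zero, pow_zero, rotf_one]
    rfl
  | succ k ih =>
    rw [pow_succ, Homeomorph.mul_apply, ih, pow_succ]
    exact rotf_rotf m (c ^ k) c z

/-- the action of the generator -/
noncomputable def tauS (m p : ℕ) [NeZero p] : Sp m ≃ₜ Sp m := rot m (ZMod.toCircle (1 : ZMod p))

theorem tauS_pow (m p : ℕ) [NeZero p] (z : Sp m) : (tauS m p ^ p) z = z := by
  have h : (ZMod.toCircle (1 : ZMod p)) ^ p = 1 := by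
    rw [← AddChar.map_nsmul_eq_pow]
    simp
  rw [tauS, rot_pow, h, rotf_one]

end Pool.Agent.W984.CN
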