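import Mathlib
import Pool.Agent.W984.CN.SphA

/-!
The free action of `ℤ/p` on the odd spheres and an equivariant map of `S^{2m-1}` to `E_{2m-1} ℤ_p`.
-/

set_option autoImplicit false

namespace Pool.Agent.W984.CN

open Topology Metric Pool.Agent.W809.CI Complex

/-- the bump function of a sector -/
noncomputable def Af (p : ℕ) (u : ℂ) : ℝ := max 0 (u.re - ‖u‖ * Real.cos (Real.pi / p))

theorem Af_nonneg (p : ℕ) (u : ℂ) : 0 ≤ Af p u := le_max_left _ _

theorem continuous_Af (p : ℕ) : Continuous (Af p) :=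
  continuous_const.max (Complex.continuous_re.sub (continuous_norm.mul continuous_const))

theorem cos_bound {p : ℕ} (hp : 2 ≤ p) {j : ℕ} (hj : 1 ≤ j) (hj' : j < p) :
    Real.cos (2 * Real.pi * j / p) ≤ Real.cos (2 * Real.pi / p) := by
  have hp0 : (0 : ℝ) < p := by positivity
  have hp2 : (2 : ℝ) ≤ p := by exact_mod_cast hp
  have hπ := Real.pi_pos
  have hj1 : (1 : ℝ) ≤ j := by exact_mod_cast hj
  have hj2 : (j : ℝ) + 1 ≤ p := by exact_mod_cast hj'
  have h0 : 0 ≤ 2 * Real.pi / p := by positivity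
  rcases le_total (2 * Real.pi * j / p) Real.pi with h | h
  · refine Real.cos_le_cos_of_nonneg_of_le_pi h0 h ?_
    rw [div_le_div_iff_of_pos_right hp0]
    nlinarith
  · have e : Real.cos (2 * Real.pi * j / p) = Real.cos (2 * Real.pi - 2 * Real.pi * j / p) := by
      rw [Real.cos_two_pi_sub]
    rw [e]
    refine Real.cos_le_cos_of_nonneg_of_le_pi h0 (by linarith) ?_
    have e2 : 2 * Real.pi - 2 * Real.pi * j / p = 2 * Real.pi * (p - j) / p := by
      field_simp
    rw [e2, div_le_div_iff_of_pos_right hp0]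
    nlinarith

theorem norm_bound {p : ℕ} [NeZero p] (hp : 2 ≤ p) {d : ZMod p} (hd : d ≠ 0) :
    ‖1 + (ZMod.toCircle d : ℂ)‖ ≤ 2 * Real.cos (Real.pi / p) := by
  have hp0 : (0 : ℝ) < p := by positivity
  have hp2 : (2 : ℝ) ≤ p := by exact_mod_cast hp
  have hc : 0 ≤ Real.cos (Real.pi / p) := by
    refine Real.cos_nonneg_of_neg_pi_div_two_le_of_le ?_ ?_
    · have : 0 ≤ Real.pi / p := by positivity
      linarith [Real.pi_pos]
    · exact div_le_div_of_nonneg_left Real.pi_pos.le (by norm_num) hp2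
  refine abs_le_of_sq_le_sq' ?_ (by positivity) |>.2
  rw [ZMod.toCircle_apply]
  have e1 : Complex.exp (2 * Real.pi * Complex.I * d.val / p) =
      Complex.exp (((2 * Real.pi * d.val / p : ℝ) : ℂ) * Complex.I) := by
    congr 1
    push_cast
    ring
  rw [e1, ← Complex.normSq_eq_norm_sq, Complex.normSq_apply]
  simp only [Complex.add_re, Complex.one_re, Complex.add_im, Complex.one_im,
    Complex.exp_ofReal_mul_I_re, Complex.exp_ofReal_mul_I_im]
  have hj : 1 ≤ d.val := Nat.one_le_iff_ne_zero.2 (fun h => hd ((ZMod.val_eq_zero d).1 h))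
  have h1 := cos_bound hp hj (ZMod.val_lt d)
  have h2 := Real.sin_sq_add_cos_sq (2 * Real.pi * d.val / p)
  have h3 : Real.cos (2 * Real.pi / p) = 2 * Real.cos (Real.pi / p) ^ 2 - 1 := by
    rw [← Real.cos_two_mul]
    congr 1
    ring
  nlinarith

theorem Af_disj {p : ℕ} [NeZero p] (hp : 2 ≤ p) {d : ZMod p} (hd : d ≠ 0) {u : ℂ}
    (h1 : Af p u ≠ 0) (h2 : Af p ((ZMod.toCircle d : ℂ) * u) ≠ 0) : False := by
  have h1' : 0 < u.re - ‖u‖ * Real.cos (Real.pi / p) := by
    by_contra h
    exact h1 (max_eq_left (not_lt.1 h))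
  have h2' : 0 < ((ZMod.toCircle d : ℂ) * u).re -
      ‖(ZMod.toCircle d : ℂ) * u‖ * Real.cos (Real.pi / p) := by
    by_contra h
    exact h2 (max_eq_left (not_lt.1 h))
  rw [norm_mul, Circle.norm_coe, one_mul] at h2'
  have h3 : u.re + ((ZMod.toCircle d : ℂ) * u).re = ((1 + (ZMod.toCircle d : ℂ)) * u).re := by
    rw [add_mul, one_mul, Complex.add_re]
  have h4 : ((1 + (ZMod.toCircle d : ℂ)) * u).re ≤ ‖1 + (ZMod.toCircle d : ℂ)‖ * ‖u‖ := by
    rw [← norm_mul]
    exact Complex.re_le_norm _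
  have h5 := mul_le_mul_of_nonneg_right (norm_bound hp hd) (norm_nonneg u)
  nlinarith

section raw

variable {m p : ℕ} [NeZero p]

/-- the phase of the odd coordinates -/
noncomputable def xi (p i : ℕ) : ℂ :=
  if i % 2 = 0 then 1 else Complex.exp (((-(Real.pi / p) : ℝ) : ℂ) * Complex.I)

/-- the unnormalised weights -/
noncomputable def raw (z : EuclideanSpace ℂ (Fin (m + 1))) (i : Fin (2 * m + 1 + 1)) (g : ZMod p) :
    ℝ :=
  Af p ((ZMod.toCircle (-g) : ℂ) * (xi p i.1 * z.ofLp ⟨i.1 / 2, by omega⟩))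

theorem raw_nonneg (z : EuclideanSpace ℂ (Fin (m + 1))) (i : Fin (2 * m + 1 + 1)) (g : ZMod p) :
    0 ≤ raw z i g := Af_nonneg _ _

theorem continuous_raw (i : Fin (2 * m + 1 + 1)) (g : ZMod p) :
    Continuous (fun z : EuclideanSpace ℂ (Fin (m + 1)) => raw z i g) := by
  refine (continuous_Af p).comp (continuous_const.mul (continuous_const.mul ?_))
  exact (EuclideanSpace.proj (𝕜 := ℂ) (⟨i.1 / 2, by omega⟩ : Fin (m + 1))).continuous

theorem raw_disj (hp : 2 ≤ p) (z : EuclideanSpace ℂ (Fin (m + 1))) (i : Fin (2 * m + 1 + 1))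
    (g g' : ZMod p) (h : raw z i g ≠ 0) (h' : raw z i g' ≠ 0) : g = g' := by
  by_contra hg
  have hd : g - g' ≠ 0 := sub_ne_zero.2 hg
  refine Af_disj hp hd h ?_
  unfold raw at h'
  rw [← mul_assoc, ← Circle.coe_mul, ← AddChar.map_add_eq_mul]
  have e : g - g' + -g = -g' := by ring
  rwa [e]

theorem raw_shift (z : EuclideanSpace ℂ (Fin (m + 1))) (i : Fin (2 * m + 1 + 1)) (g : ZMod p) :
    raw ((ZMod.toCircle (1 : ZMod p) : ℂ) • z) i g = raw z i (g - 1) := by
  unfold raw
  congr 1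
  have e : -(g - 1) = -g + 1 := by ring
  rw [e, AddChar.map_add_eq_mul, Circle.coe_mul]
  simp only [PiLp.smul_apply, smul_eq_mul]
  ring

theorem raw_pos (hp : 2 ≤ p) (z : EuclideanSpace ℂ (Fin (m + 1))) (hz : z ≠ 0) :
    ∃ i g, 0 < raw (p := p) z i g := by
  obtain ⟨a, ha⟩ : ∃ a, z.ofLp a ≠ 0 := by
    by_contra h
    push Not at h
    refine hz ?_
    ext a
    simpa using h a
  have hp0 : (0 : ℝ) < p := by positivity
  have hp2 : (2 : ℝ) ≤ p := by exact_mod_cast hp
  have hπ := Real.pi_pos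
  have hr : 0 < ‖z.ofLp a‖ := norm_pos_iff.2 ha
  set θ : ℝ := Complex.arg (z.ofLp a) with hθ
  set k : ℤ := round (θ * p / Real.pi) with hk
  have hk1 : |θ * p / Real.pi - k| ≤ 1 / 2 := abs_sub_round _
  have hx : |θ - k * (Real.pi / p)| < Real.pi / p := by
    have e : θ - k * (Real.pi / p) = (θ * p / Real.pi - k) * (Real.pi / p) := by
      field_simp
    rw [e, abs_mul, abs_of_pos (by positivity : 0 < Real.pi / p)]
    have : 0 < Real.pi / p := by positivity
    nlinarith
  have hcos : Real.cos (Real.pi / p) < Real.cos (θ - k * (Real.pi / p)) := by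
    rw [← Real.cos_abs (θ - k * (Real.pi / p))]
    refine Real.cos_lt_cos_of_nonneg_of_le_pi (abs_nonneg _) ?_ hx
    exact div_le_self hπ.le (by linarith)
  have key : ∀ c : ℂ, c = Complex.exp (((-(k * (Real.pi / p)) : ℝ) : ℂ) * Complex.I) →
      0 < Af p (c * z.ofLp a) := by
    intro c hc
    have e1 : c * z.ofLp a = (‖z.ofLp a‖ : ℂ) *
        Complex.exp (((θ - k * (Real.pi / p) : ℝ) : ℂ) * Complex.I) := by
      conv_lhs => rw [← Complex.norm_mul_exp_arg_mul_I (z.ofLp a)]
      rw [hc, mul_left_comm, ← Complex.exp_add]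
      congr 2
      push_cast
      ring
    have e2 : ‖c * z.ofLp a‖ = ‖z.ofLp a‖ := by
      rw [norm_mul, hc, Complex.norm_exp_ofReal_mul_I, one_mul]
    have e3 : (c * z.ofLp a).re = ‖z.ofLp a‖ * Real.cos (θ - k * (Real.pi / p)) := by
      rw [e1, Complex.re_ofReal_mul, Complex.exp_ofReal_mul_I_re]
    unfold Af
    rw [e2, e3]
    refine lt_max_of_lt_right ?_
    have := mul_lt_mul_of_pos_left hcos hr
    linarith
  rcases Int.even_or_odd' k with ⟨l, hl | hl⟩
  · refine ⟨⟨2 * a.1, by omega⟩, (l : ZMod p), ?_⟩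
    have h1 := key (ZMod.toCircle (-(l : ZMod p)) : ℂ) (by
      have : -(l : ZMod p) = ((-l : ℤ) : ZMod p) := by push_cast; ring
      rw [this, ZMod.toCircle_intCast, hl]
      congr 1
      push_cast
      field_simp)
    unfold raw xi
    have e5 : (⟨2 * a.1 / 2, by omega⟩ : Fin (m + 1)) = a := by
      ext
      simp
    simp only [e5]
    rw [if_pos (by omega), one_mul]
    exact h1
  · refine ⟨⟨2 * a.1 + 1, by omega⟩, (l : ZMod p), ?_⟩
    have h1 := key ((ZMod.toCircle (-(l : ZMod p)) : ℂ) *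
        Complex.exp (((-(Real.pi / p) : ℝ) : ℂ) * Complex.I)) (by
      have : -(l : ZMod p) = ((-l : ℤ) : ZMod p) := by push_cast; ring
      rw [this, ZMod.toCircle_intCast, hl, ← Complex.exp_add]
      congr 1
      push_cast
      field_simp
      ring)
    unfold raw xi
    have e5 : (⟨(2 * a.1 + 1) / 2, by omega⟩ : Fin (m + 1)) = a := by
      ext
      simp
      omega
    simp only [e5]
    rw [if_neg (by omega), ← mul_assoc]
    exact h1

/-- the total weight -/
noncomputable def tot (p : ℕ) [NeZero p] (z : EuclideanSpace ℂ (Fin (m + 1))) : ℝ :=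
  ∑ i, ∑ g : ZMod p, raw z i g

theorem tot_pos (hp : 2 ≤ p) (z : EuclideanSpace ℂ (Fin (m + 1))) (hz : z ≠ 0) :
    0 < tot p z := by
  obtain ⟨i, g, h⟩ := raw_pos hp z hz
  calc 0 < raw z i g := h
    _ ≤ ∑ g', raw z i g' :=
        Finset.single_le_sum (f := fun g' => raw z i g') (fun g' _ => raw_nonneg z i g')
          (Finset.mem_univ g)
    _ ≤ tot p z :=
        Finset.single_le_sum (f := fun i' => ∑ g' : ZMod p, raw z i' g')
          (fun i' _ => Finset.sum_nonneg fun g' _ => raw_nonneg z i' g') (Finset.mem_univ i)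

theorem tot_shift (z : EuclideanSpace ℂ (Fin (m + 1))) :
    tot p ((ZMod.toCircle (1 : ZMod p) : ℂ) • z) = tot p z := by
  unfold tot
  refine Finset.sum_congr rfl fun i _ => ?_
  simp only [raw_shift]
  exact Fintype.sum_equiv (Equiv.subRight 1) _ _ (fun g => rfl)

end raw

theorem indLe_sphere (m p : ℕ) [NeZero p] (hp : 2 ≤ p) :
    IndLe (tauS (m + 1) p) p (2 * m + 1) := by
  have hne : ∀ z : Sp (m + 1), z.1 ≠ 0 := fun z h => by
    have := mem_sphere_zero_iff_norm.1 z.2
    rw [h, norm_zero] at this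
    exact zero_ne_one this
  refine ⟨fun z => ⟨fun i g => raw z.1 i g / tot p z.1, fun i g =>
    div_nonneg (raw_nonneg _ _ _) (tot_pos hp _ (hne z)).le, ?_, ?_⟩, ?_, ?_⟩
  · simp only [← Finset.sum_div]
    exact div_self (tot_pos hp _ (hne z)).ne'
  · intro i g g' h h'
    refine raw_disj hp z.1 i g g' ?_ ?_
    · intro h0
      have h1 : raw z.1 i g / tot p z.1 ≠ 0 := h
      rw [h0, zero_div] at h1
      exact h1 rfl
    · intro h0
      have h1 : raw z.1 i g' / tot p z.1 ≠ 0 := h'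
      rw [h0, zero_div] at h1
      exact h1 rfl
  · refine Continuous.subtype_mk (continuous_pi fun i => continuous_pi fun g => ?_) _
    refine Continuous.div ((continuous_raw i g).comp continuous_subtype_val) ?_
      fun z => (tot_pos hp _ (hne z)).ne'
    unfold tot
    exact continuous_finsetSum _ fun i _ => continuous_finsetSum _ fun g _ =>
      (continuous_raw i g).comp continuous_subtype_val
  · intro z
    refine Subtype.ext ?_
    funext i g
    change raw ((ZMod.toCircle (1 : ZMod p) : ℂ) • z.1) i g /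
      tot p ((ZMod.toCircle (1 : ZMod p) : ℂ) • z.1) = raw z.1 i (g - 1) / tot p z.1
    rw [raw_shift, tot_shift]

end Pool.Agent.W984.CN
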