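import Mathlib
import Pool.Agent.W984.CN.Sph
import Pool.Agent.W984.CN.Conn
import Pool.Agent.Results.MP_b3a110_an.CoindexGrowth

/-!
Systems with prescribed `p`-periodic point sets; connectivity.
-/

set_option autoImplicit false

namespace Pool.Agent.W984.CN

open Topology Metric Pool.Agent.W809.CI

/-- the system of `Pool.Agent.W809.CI` -/
theorem base :
    ∃ (X : Type) (_ : TopologicalSpace X) (T : X ≃ₜ X),
      CompactSpace X ∧ TopologicalSpace.MetrizableSpace X ∧ (∀ x, T x ≠ x) ∧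
      ∀ (p : ℕ) [Fact p.Prime] (n : ℕ), ((n + 1 : ℕ) : ℝ) ≤ p / (1536 * Real.log p) →
        HasComap T p n := by
  have hBK : S_BK := Pool.Agent.W202.CI.BkB.bk
  have hCC : S_CC := Pool.Agent.W397.CI.ccp hBK
  have hPT : S_PT := Pool.Agent.W639.CI.pt
  have hFOP : S_FOP := Pool.Agent.W33.CI.fopc hPT
  have hEXT : S_EXT := Pool.Agent.W696.CI.ext hPT
  have hHOP : S_HOP := Pool.Agent.W202.CI.Hop.hop hPT
  have hHCONT : S_HCONT := hcont hFOP hEXT hHOP
  have hHINV : S_HINV := Pool.Agent.W959.CI.hinv hPT hCC hHOP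
  have hHSTAR : S_HSTAR := Pool.Agent.W465.CI.hstar hPT hCC hHOP
  have hSTG1 : S_STG1 := Pool.Agent.W101.CI.stg1 hPT hHOP hHCONT
  have hSTG2 : S_STG2 := Pool.Agent.W351.CI.stg2 hPT hCC hHINV hHSTAR
  have hJOIN : S_JOIN := Pool.Agent.W91.CI.join hSTG1
  have hSYS : S_SYS := Pool.Agent.W376.CI.sys hCC
  exact Pool.Agent.W809.CI.main hSTG2 hJOIN hSYS

theorem large (K : ℝ) : ∃ p₀ : ℕ, ∀ p : ℕ, p₀ ≤ p → 2 ≤ p → K ≤ p / Real.log p := by
  obtain ⟨m, hm⟩ := exists_nat_ge ((2 * (|K| + 1)) ^ 2)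
  refine ⟨m, fun p hpm hp2 => ?_⟩
  have hp1 : (1 : ℝ) < p := by exact_mod_cast hp2
  have hp0 : (0 : ℝ) < p := by linarith
  have hlp : 0 < Real.log p := Real.log_pos hp1
  have hpm' : (2 * (|K| + 1)) ^ 2 ≤ (p : ℝ) := by
    have : (m : ℝ) ≤ p := by exact_mod_cast hpm
    linarith
  have hs0 : 0 < Real.sqrt p := Real.sqrt_pos.2 hp0
  have hsq : Real.sqrt p * Real.sqrt p = p := Real.mul_self_sqrt hp0.le
  have hlog : Real.log p ≤ 2 * Real.sqrt p := by
    have h5 : Real.log p = 2 * Real.log (Real.sqrt p) := by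
      rw [Real.log_sqrt hp0.le]; ring
    have h6 := Real.log_le_sub_one_of_pos hs0
    rw [h5]
    linarith
  have hsK : 2 * (|K| + 1) ≤ Real.sqrt p := Real.le_sqrt_of_sq_le hpm'
  have h8 : Real.sqrt p / 2 ≤ p / Real.log p := by
    rw [le_div_iff₀ hlp]
    nlinarith
  have h9 := le_abs_self K
  linarith

/-- every family of spaces of index at most `c p / log p` is realised -/
theorem realise :
    ∃ (c : ℝ) (p₀ : ℕ), 0 < c ∧
      ∀ (S : Set ℕ), (∀ p ∈ S, p.Prime ∧ p₀ ≤ p) →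
      ∀ (Q : ℕ → Type) [∀ p, TopologicalSpace (Q p)] [∀ p, CompactSpace (Q p)]
        [∀ p, TopologicalSpace.MetrizableSpace (Q p)] (τ : ∀ p, Q p ≃ₜ Q p) (n : ℕ → ℕ),
        (∀ (p : ℕ) [Fact p.Prime], p ∈ S → (∀ w, (τ p ^ p) w = w) ∧
          (n p : ℝ) ≤ c * (p / Real.log p) ∧ IndLe (τ p) p (n p)) →
        ∃ (X : Type) (_ : TopologicalSpace X) (T : X ≃ₜ X),
          CompactSpace X ∧ TopologicalSpace.MetrizableSpace X ∧ (∀ x, T x ≠ x) ∧
          (∀ p ∈ S, ∃ e : Q p ≃ₜ Per T p, ∀ w, e (τ p w) = (e w).next) ∧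
          ∀ m : ℕ, (∀ p ∈ S, ¬ p ∣ m) → IsEmpty (Per T m) := by
  obtain ⟨p₁, hp₁⟩ := large 3072
  refine ⟨1 / 3072, p₁, by norm_num, ?_⟩
  intro S hS Q _ _ hQ τ n hn
  obtain ⟨X₀, hX₀, T₀, h1, h2, h3, h4⟩ := base
  exact transfer h2 T₀ h3 S n
    (fun p hp => (hS p hp).1) (fun p _ hp => by
      refine h4 p (n p) ?_
      have h5 := (hn p hp).2.1
      have hp1 : (1 : ℝ) < p := by exact_mod_cast (hS p hp).1.one_lt
      have hlp : 0 < Real.log p := Real.log_pos hp1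
      have h6 := hp₁ p (hS p hp).2 (hS p hp).1.two_le
      have e : (p : ℝ) / (1536 * Real.log p) = 1 / 1536 * (p / Real.log p) := by
        field_simp
      rw [e]
      push_cast
      linarith) Q hQ τ (fun p hp => by
        have : Fact p.Prime := ⟨(hS p hp).1⟩
        exact (hn p hp).1) (fun p _ hp => (hn p hp).2.2)

/-- connectivity growth -/
theorem conn :
    ∃ (X : Type) (_ : TopologicalSpace X) (T : X ≃ₜ X) (c : ℝ) (p₀ : ℕ),
      CompactSpace X ∧ TopologicalSpace.MetrizableSpace X ∧ (∀ x, T x ≠ x) ∧ 0 < c ∧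
      ∀ (p : ℕ) [Fact p.Prime], p₀ ≤ p → ∃ m : ℕ, c * (p / Real.log p) ≤ 2 * m ∧
        (∃ e : Sp (m + 1) ≃ₜ Per T p, ∀ z, e (tauS (m + 1) p z) = (e z).next) ∧
        IsConn (2 * m) (Per T p) := by
  classical
  obtain ⟨c, p₀, hc, h⟩ := realise
  obtain ⟨p₁, hp₁⟩ := large (8 / c)
  have hx : ∀ p : ℕ, p.Prime → p₁ ≤ p → 8 ≤ c * (p / Real.log p) := by
    intro p hp hpp
    have h1 := hp₁ p hpp hp.two_le
    rw [div_le_iff₀ hc] at h1
    linarith
  -- `m + 1` complex coordinates with `2 m + 1 ≤ c p / log p`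
  let m : ℕ → ℕ := fun p => ⌊(c * (p / Real.log p) - 1) / 2⌋₊
  let τ : ∀ p : ℕ, Sp (m p + 1) ≃ₜ Sp (m p + 1) := fun p =>
    if hp : p = 0 then Homeomorph.refl _ else
      haveI : NeZero p := ⟨hp⟩; tauS (m p + 1) p
  have hτ : ∀ (p : ℕ) [NeZero p], τ p = tauS (m p + 1) p := by
    intro p hp
    exact dif_neg hp.out
  obtain ⟨X, hX, T, g1, g2, g3, g4, -⟩ := h {p | p.Prime ∧ max p₀ p₁ ≤ p}
    (fun p hp => ⟨hp.1, (le_max_left _ _).trans hp.2⟩) (fun p => Sp (m p + 1)) τ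
    (fun p => 2 * m p + 1) (by
      intro p hpf hp
      have : NeZero p := ⟨hpf.out.ne_zero⟩
      rw [hτ p]
      refine ⟨tauS_pow _ _, ?_, indLe_sphere (m p) p hpf.out.two_le⟩
      have h8 := hx p hp.1 ((le_max_right _ _).trans hp.2)
      have h9 : (m p : ℝ) ≤ (c * (p / Real.log p) - 1) / 2 := Nat.floor_le (by linarith)
      push_cast
      linarith)
  refine ⟨X, hX, T, c / 2, max p₀ p₁, g1, g2, g3, by positivity, fun p hpf hpp => ?_⟩
  obtain ⟨e, he⟩ := g4 p ⟨hpf.out, hpp⟩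
  have h8 := hx p hpf.out ((le_max_right _ _).trans hpp)
  have h9 : (c * (p / Real.log p) - 1) / 2 < m p + 1 := Nat.lt_floor_add_one _
  refine ⟨m p, by linarith, ⟨e, fun z => ?_⟩, IsConn.of_homeo (isConn_sphere ?_) e⟩
  · rw [← he, hτ p]
  · rw [finrank_real_of_complex, finrank_euclideanSpace_fin]
    omega

end Pool.Agent.W984.CN
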