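import Mathlib
import Pool.Agent.W984.CN.Sph
import Pool.Agent.W984.CN.Conn

/-!
From coindex to connectivity.
-/

set_option autoImplicit false

namespace Pool.Agent.W984.CN

open Topology Metric Pool.Agent.W809.CI

section incl

variable {p a b : ℕ}

/-- extension by zero -/
def inclFun (w : Fin (a + 1) → ZMod p → ℝ) (i : Fin (b + 1)) (g : ZMod p) : ℝ :=
  if h : i.1 < a + 1 then w ⟨i.1, h⟩ g else 0

theorem incl_sum [NeZero p] (hab : a ≤ b) (w : Fin (a + 1) → ZMod p → ℝ) :
    ∑ i : Fin (b + 1), ∑ g, inclFun w i g = ∑ i, ∑ g, w i g := by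
  symm
  refine Finset.sum_of_injOn (Fin.castLE (Nat.succ_le_succ hab)) (Fin.castLE_injective _).injOn
    (fun _ _ => Finset.mem_coe.2 (Finset.mem_univ _)) ?_ ?_
  · intro i _ hi
    refine Finset.sum_eq_zero fun g _ => ?_
    refine dif_neg ?_
    intro h
    exact hi ⟨⟨i.1, h⟩, Finset.mem_coe.2 (Finset.mem_univ _), rfl⟩
  · intro i _
    refine Finset.sum_congr rfl fun g _ => ?_
    unfold inclFun
    rw [dif_pos (show (Fin.castLE (Nat.succ_le_succ hab) i).1 < a + 1 from i.2)]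
    rfl

/-- the inclusion `E_a ℤ_p → E_b ℤ_p` -/
def incl [NeZero p] (hab : a ≤ b) (w : EJoin p a) : EJoin p b :=
  ⟨inclFun w.1, by
    intro i g
    unfold inclFun
    split_ifs with h
    · exact w.2.1 _ _
    · exact le_rfl, (incl_sum hab w.1).trans w.2.2.1, by
    intro i g g' h h'
    unfold inclFun at h h'
    by_cases hi : i.1 < a + 1
    · rw [dif_pos hi] at h h'
      exact w.2.2.2 _ g g' h h'
    · rw [dif_neg hi] at h
      exact absurd rfl h⟩

theorem continuous_incl [NeZero p] (hab : a ≤ b) : Continuous (incl (p := p) hab) := by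
  refine Continuous.subtype_mk (continuous_pi fun i => continuous_pi fun g => ?_) _
  unfold inclFun
  by_cases hi : i.1 < a + 1
  · simp only [dif_pos hi]
    exact continuous_coord _ _
  · simp only [dif_neg hi]
    exact continuous_const

theorem incl_shift [NeZero p] (hab : a ≤ b) (w : EJoin p a) :
    incl hab w.shift = (incl hab w).shift := rfl

end incl

/-- connectivity from coindex -/
theorem conn_of_coind {X₀ : Type} [TopologicalSpace X₀] [CompactSpace X₀]
    (hX₀ : TopologicalSpace.MetrizableSpace X₀) (T₀ : X₀ ≃ₜ X₀) (hT₀ : ∀ x, T₀ x ≠ x)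
    (n : ℕ → ℕ) (hn : ∀ (p : ℕ) [Fact p.Prime], 2 ≤ n p → HasComap T₀ p (n p)) :
    ∃ (X : Type) (_ : TopologicalSpace X) (T : X ≃ₜ X),
      CompactSpace X ∧ TopologicalSpace.MetrizableSpace X ∧ (∀ x, T x ≠ x) ∧
      ∀ (p : ℕ), p.Prime → 2 ≤ n p → IsConn (n p - 2) (Per T p) := by
  classical
  let m : ℕ → ℕ := fun p => (n p - 1) / 2
  let τ : ∀ p : ℕ, Sp (m p + 1) ≃ₜ Sp (m p + 1) := fun p =>
    if hp : p = 0 then Homeomorph.refl _ else
      haveI : NeZero p := ⟨hp⟩; tauS (m p + 1) p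
  have hτ : ∀ (p : ℕ) [NeZero p], τ p = tauS (m p + 1) p := by
    intro p hp
    exact dif_neg hp.out
  have hE : ∀ (p : ℕ) [Fact p.Prime], 2 ≤ n p → HasComap T₀ p (2 * m p + 1) := by
    intro p hpf h3
    obtain ⟨f, hf, hf'⟩ := hn p h3
    have hle : 2 * m p + 1 ≤ n p := by
      change 2 * ((n p - 1) / 2) + 1 ≤ n p
      omega
    refine ⟨fun w => f (incl hle w), hf.comp (continuous_incl hle), fun w => ?_⟩
    exact (congrArg f (incl_shift hle w)).trans (hf' _)
  obtain ⟨X, hX, T, g1, g2, g3, g4, -⟩ := transfer hX₀ T₀ hT₀ {p | p.Prime ∧ 2 ≤ n p}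
    (fun p => 2 * m p + 1) (fun p hp => hp.1) (fun p _ hp => hE p hp.2) (fun p => Sp (m p + 1))
    (fun p => inferInstance) τ (fun p hp => by
      have : NeZero p := ⟨hp.1.ne_zero⟩
      rw [hτ p]
      exact tauS_pow _ _) (fun p _ hp => by
      rw [hτ p]
      exact indLe_sphere (m p) p hp.1.two_le)
  refine ⟨X, hX, T, g1, g2, g3, fun p hp h3 => ?_⟩
  obtain ⟨e, -⟩ := g4 p ⟨hp, h3⟩
  refine IsConn.of_homeo (isConn_sphere ?_) e
  rw [finrank_real_of_complex, finrank_euclideanSpace_fin]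
  change n p - 2 + 1 < 2 * ((n p - 1) / 2 + 1)
  omega

end Pool.Agent.W984.CN
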